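import Mathlib

/-!
# Algebra for the graphs of girth twelve

Closed polygons whose steps are multiples of points `(1, x, x ^ 2, x ^ 3)` of the twisted cubic.
-/

set_option autoImplicit false

namespace Pool.Agent.KS6_54.GS

variable {K : Type} [Field K]

/-- Two lines `(y, w, z, t)`, `(y', w', z', t')` through a point with first coordinate `x`. -/
def LS (x : K) (l l' : K × K × K × K) : Prop :=
  l'.2.1 - l.2.1 = x * (l'.1 - l.1) ∧ l'.2.2.1 - l.2.2.1 = x ^ 2 * (l'.1 - l.1) ∧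
    l'.2.2.2 - l.2.2.2 = x ^ 3 * (l'.1 - l.1)

theorem alg2 {x1 x2 : K} {l1 l2 : K × K × K × K}
    (h1 : LS x1 l2 l1) (h2 : LS x2 l1 l2) (hx : x1 ≠ x2) (hy : l1.1 ≠ l2.1) : False := by
  obtain ⟨h1, -, -⟩ := h1
  obtain ⟨h2, -, -⟩ := h2
  have : (x1 - x2) * (l1.1 - l2.1) = 0 := by linear_combination - h1 - h2
  rcases mul_eq_zero.1 this with h | h
  · exact hx (sub_eq_zero.1 h)
  · exact hy (sub_eq_zero.1 h)

theorem alg3 {x1 x2 x3 : K} {l1 l2 l3 : K × K × K × K}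
    (h1 : LS x1 l3 l1) (h2 : LS x2 l1 l2) (h3 : LS x3 l2 l3)
    (hx12 : x1 ≠ x2) (hx31 : x3 ≠ x1) (hy : l3.1 ≠ l1.1) : False := by
  obtain ⟨a1, b1, -⟩ := h1
  obtain ⟨a2, b2, -⟩ := h2
  obtain ⟨a3, b3, -⟩ := h3
  have : (x1 - x2) * ((x3 - x1) * (l3.1 - l1.1)) = 0 := by
    linear_combination - (b1 + b2 + b3) + (x2 + x3) * (a1 + a2 + a3)
  rcases mul_eq_zero.1 this with h | h
  · exact hx12 (sub_eq_zero.1 h)
  rcases mul_eq_zero.1 h with h | h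
  · exact hx31 (sub_eq_zero.1 h)
  · exact hy (sub_eq_zero.1 h)

/-- The quadratic form of the last coordinate. -/
def Q (l : K × K × K × K) : K := l.1 * l.2.2.1 - l.2.1 ^ 2

theorem alg4 {x1 x2 x3 x4 : K} {l1 l2 l3 l4 : K × K × K × K}
    (h1 : LS x1 l4 l1) (h2 : LS x2 l1 l2) (h3 : LS x3 l2 l3) (h4 : LS x4 l3 l4)
    (hx12 : x1 ≠ x2) (hx23 : x2 ≠ x3) (hx41 : x4 ≠ x1)
    (hy41 : l4.1 ≠ l1.1) (hy12 : l1.1 ≠ l2.1)
    (e1 : (x2 - x1) * l1.1 + (x3 - x2) * l2.1 + (x4 - x3) * l3.1 + (x1 - x4) * l4.1 = 0)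
    (e2 : (x2 - x1) * l1.2.1 + (x3 - x2) * l2.2.1 + (x4 - x3) * l3.2.1 + (x1 - x4) * l4.2.1 = 0)
    (e3 : (x2 - x1) * l1.2.2.1 + (x3 - x2) * l2.2.2.1 + (x4 - x3) * l3.2.2.1 +
      (x1 - x4) * l4.2.2.1 = 0)
    (e4 : (x2 - x1) * Q l1 + (x3 - x2) * Q l2 + (x4 - x3) * Q l3 + (x1 - x4) * Q l4 = 0) :
    False := by
  obtain ⟨y1, w1, z1, t1⟩ := l1
  obtain ⟨y2, w2, z2, t2⟩ := l2
  obtain ⟨y3, w3, z3, t3⟩ := l3
  obtain ⟨y4, w4, z4, t4⟩ := l4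
  obtain ⟨a1, b1, c1⟩ := h1
  obtain ⟨a2, b2, c2⟩ := h2
  obtain ⟨a3, b3, c3⟩ := h3
  obtain ⟨a4, b4, c4⟩ := h4
  simp only [Q] at *
  -- moments
  have M1 : x1 * (y1 - y4) + x2 * (y2 - y1) + x3 * (y3 - y2) + x4 * (y4 - y3) = 0 := by
    linear_combination - a1 - a2 - a3 - a4
  have M2 : x1 ^ 2 * (y1 - y4) + x2 ^ 2 * (y2 - y1) + x3 ^ 2 * (y3 - y2) +
      x4 ^ 2 * (y4 - y3) = 0 := by linear_combination - b1 - b2 - b3 - b4
  have M3 : x1 ^ 3 * (y1 - y4) + x2 ^ 3 * (y2 - y1) + x3 ^ 3 * (y3 - y2) +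
      x4 ^ 3 * (y4 - y3) = 0 := by linear_combination - c1 - c2 - c3 - c4
  have n1 : y1 - y4 ≠ 0 := sub_ne_zero.2 hy41.symm
  have n2 : y2 - y1 ≠ 0 := sub_ne_zero.2 hy12.symm
  have h13 : x1 = x3 := by
    by_contra h13
    have k1 : (y1 - y4) * ((x1 - x2) * ((x1 - x3) * (x1 - x4))) = 0 := by
      linear_combination M3 - (x2 + x3 + x4) * M2 + (x2 * x3 + x2 * x4 + x3 * x4) * M1
    exact mul_ne_zero n1 (mul_ne_zero (sub_ne_zero.2 hx12)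
      (mul_ne_zero (sub_ne_zero.2 h13) (sub_ne_zero.2 hx41.symm))) k1
  have h24 : x2 = x4 := by
    by_contra h24
    have k1 : (y2 - y1) * ((x2 - x1) * ((x2 - x3) * (x2 - x4))) = 0 := by
      linear_combination M3 - (x1 + x3 + x4) * M2 + (x1 * x3 + x1 * x4 + x3 * x4) * M1
    exact mul_ne_zero n2 (mul_ne_zero (sub_ne_zero.2 hx12.symm)
      (mul_ne_zero (sub_ne_zero.2 hx23) (sub_ne_zero.2 h24))) k1
  subst h13 h24
  have hd : x1 - x2 ≠ 0 := sub_ne_zero.2 hx12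
  obtain rfl : w1 = w4 + x1 * (y1 - y4) := by linear_combination a1
  obtain rfl : z1 = z4 + x1 ^ 2 * (y1 - y4) := by linear_combination b1
  obtain rfl : w2 = w4 + x1 * (y1 - y4) + x2 * (y2 - y1) := by linear_combination a2
  obtain rfl : z2 = z4 + x1 ^ 2 * (y1 - y4) + x2 ^ 2 * (y2 - y1) := by linear_combination b2
  obtain rfl : w3 = w4 - x2 * (y4 - y3) := by linear_combination - a4
  obtain rfl : z3 = z4 - x2 ^ 2 * (y4 - y3) := by linear_combination - b4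
  have F : (x1 - x2) ^ 3 * ((y1 - y4) * (y2 - y1)) = 0 := by
    linear_combination e4 - y4 * e3 - z4 * e1 + 2 * w4 * e2
  exact mul_ne_zero (pow_ne_zero 3 hd) (mul_ne_zero n1 n2) F

/-- In a pentagon the points are distinct. -/
theorem dist5 {x1 x2 x3 x4 x5 a1 a2 a3 a4 a5 : K} (M0 : a1 + a2 + a3 + a4 + a5 = 0)
    (M1 : x1 * a1 + x2 * a2 + x3 * a3 + x4 * a4 + x5 * a5 = 0)
    (M2 : x1 ^ 2 * a1 + x2 ^ 2 * a2 + x3 ^ 2 * a3 + x4 ^ 2 * a4 + x5 ^ 2 * a5 = 0)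
    (M3 : x1 ^ 3 * a1 + x2 ^ 3 * a2 + x3 ^ 3 * a3 + x4 ^ 3 * a4 + x5 ^ 3 * a5 = 0)
    (hx34 : x3 ≠ x4) (hx45 : x4 ≠ x5) (hx51 : x5 ≠ x1) (h4 : a4 ≠ 0) (h5 : a5 ≠ 0) :
    x1 ≠ x3 := by
  intro h13
  subst h13
  have h25 : x2 = x5 := by
    by_contra h25
    have k1 : a5 * ((x5 - x1) * ((x5 - x2) * (x5 - x4))) = 0 := by
      linear_combination M3 - (x1 + x2 + x4) * M2 + (x1 * x2 + x1 * x4 + x2 * x4) * M1 -
        x1 * x2 * x4 * M0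
    exact mul_ne_zero h5 (mul_ne_zero (sub_ne_zero.2 hx51)
      (mul_ne_zero (sub_ne_zero.2 (Ne.symm h25)) (sub_ne_zero.2 hx45.symm))) k1
  subst h25
  have k1 : a4 * ((x4 - x1) * (x4 - x2)) = 0 := by
    linear_combination M2 - (x1 + x2) * M1 + x1 * x2 * M0
  exact mul_ne_zero h4 (mul_ne_zero (sub_ne_zero.2 hx34.symm) (sub_ne_zero.2 hx45)) k1

theorem alg5 {x1 x2 x3 x4 x5 : K} {l1 l2 l3 l4 l5 : K × K × K × K}
    (h1 : LS x1 l5 l1) (h2 : LS x2 l1 l2) (h3 : LS x3 l2 l3) (h4 : LS x4 l3 l4)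
    (h5 : LS x5 l4 l5)
    (hx12 : x1 ≠ x2) (hx23 : x2 ≠ x3) (hx34 : x3 ≠ x4) (hx45 : x4 ≠ x5) (hx51 : x5 ≠ x1)
    (hy51 : l5.1 ≠ l1.1) (hy12 : l1.1 ≠ l2.1) (hy23 : l2.1 ≠ l3.1) (hy34 : l3.1 ≠ l4.1)
    (hy45 : l4.1 ≠ l5.1)
    (e1 : (x2 - x1) * l1.1 + (x3 - x2) * l2.1 + (x4 - x3) * l3.1 + (x5 - x4) * l4.1 +
      (x1 - x5) * l5.1 = 0)
    (e2 : (x2 - x1) * l1.2.1 + (x3 - x2) * l2.2.1 + (x4 - x3) * l3.2.1 +
      (x5 - x4) * l4.2.1 + (x1 - x5) * l5.2.1 = 0)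
    (e3 : (x2 - x1) * l1.2.2.1 + (x3 - x2) * l2.2.2.1 + (x4 - x3) * l3.2.2.1 +
      (x5 - x4) * l4.2.2.1 + (x1 - x5) * l5.2.2.1 = 0)
    (e4 : (x2 - x1) * Q l1 + (x3 - x2) * Q l2 + (x4 - x3) * Q l3 + (x5 - x4) * Q l4 +
      (x1 - x5) * Q l5 = 0) :
    False := by
  obtain ⟨y1, w1, z1, t1⟩ := l1
  obtain ⟨y2, w2, z2, t2⟩ := l2
  obtain ⟨y3, w3, z3, t3⟩ := l3
  obtain ⟨y4, w4, z4, t4⟩ := l4
  obtain ⟨y5, w5, z5, t5⟩ := l5
  obtain ⟨a1, b1, c1⟩ := h1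
  obtain ⟨a2, b2, c2⟩ := h2
  obtain ⟨a3, b3, c3⟩ := h3
  obtain ⟨a4, b4, c4⟩ := h4
  obtain ⟨a5, b5, c5⟩ := h5
  simp only [Q] at *
  obtain ⟨A1, rfl⟩ : ∃ A1, y1 = y5 + A1 := ⟨y1 - y5, by ring⟩
  obtain ⟨A2, rfl⟩ : ∃ A2, y2 = y5 + A1 + A2 := ⟨y2 - (y5 + A1), by ring⟩
  obtain ⟨A3, rfl⟩ : ∃ A3, y3 = y5 + A1 + A2 + A3 := ⟨y3 - (y5 + A1 + A2), by ring⟩
  obtain ⟨A5, rfl⟩ : ∃ A5, y4 = y5 - A5 := ⟨y5 - y4, by ring⟩
  obtain ⟨A4, hA4⟩ : ∃ A4, A1 + A2 + A3 + A4 + A5 = 0 := ⟨-(A1 + A2 + A3 + A5), by ring⟩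
  have n1 : A1 ≠ 0 := fun h => hy51 (by rw [h]; ring)
  have n2 : A2 ≠ 0 := fun h => hy12 (by rw [h]; ring)
  have n3 : A3 ≠ 0 := fun h => hy23 (by rw [h]; ring)
  have n4 : A4 ≠ 0 := fun h => hy34 (by linear_combination hA4 - h)
  have n5 : A5 ≠ 0 := fun h => hy45 (by rw [h]; ring)
  -- moments
  have M1 : x1 * A1 + x2 * A2 + x3 * A3 + x4 * A4 + x5 * A5 = 0 := by
    linear_combination - a1 - a2 - a3 - a4 - a5 + x4 * hA4
  have M2 : x1 ^ 2 * A1 + x2 ^ 2 * A2 + x3 ^ 2 * A3 + x4 ^ 2 * A4 + x5 ^ 2 * A5 = 0 := by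
    linear_combination - b1 - b2 - b3 - b4 - b5 + x4 ^ 2 * hA4
  have M3 : x1 ^ 3 * A1 + x2 ^ 3 * A2 + x3 ^ 3 * A3 + x4 ^ 3 * A4 + x5 ^ 3 * A5 = 0 := by
    linear_combination - c1 - c2 - c3 - c4 - c5 + x4 ^ 3 * hA4
  have d13 : x1 ≠ x3 := dist5 hA4 M1 M2 M3 hx34 hx45 hx51 n4 n5
  have d24 : x2 ≠ x4 := dist5 (x2 := x3) (a1 := A2) (a2 := A3) (a3 := A4) (a4 := A5) (a5 := A1)
    (by linear_combination hA4) (by linear_combination M1) (by linear_combination M2)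
    (by linear_combination M3) hx45 hx51 hx12 n5 n1
  have d35 : x3 ≠ x5 := dist5 (x2 := x4) (a1 := A3) (a2 := A4) (a3 := A5) (a4 := A1) (a5 := A2)
    (by linear_combination hA4) (by linear_combination M1) (by linear_combination M2)
    (by linear_combination M3) hx51 hx12 hx23 n1 n2
  have d41 : x4 ≠ x1 := dist5 (x2 := x5) (a1 := A4) (a2 := A5) (a3 := A1) (a4 := A2) (a5 := A3)
    (by linear_combination hA4) (by linear_combination M1) (by linear_combination M2)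
    (by linear_combination M3) hx12 hx23 hx34 n2 n3
  have d52 : x5 ≠ x2 := dist5 (x2 := x1) (a1 := A5) (a2 := A1) (a3 := A2) (a4 := A3) (a5 := A4)
    (by linear_combination hA4) (by linear_combination M1) (by linear_combination M2)
    (by linear_combination M3) hx23 hx34 hx45 n3 n4
  -- the sum of the values of `Q` relative to the last line
  obtain rfl : w1 = w5 + x1 * A1 := by linear_combination a1
  obtain rfl : z1 = z5 + x1 ^ 2 * A1 := by linear_combination b1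
  obtain rfl : w2 = w5 + x1 * A1 + x2 * A2 := by linear_combination a2
  obtain rfl : z2 = z5 + x1 ^ 2 * A1 + x2 ^ 2 * A2 := by linear_combination b2
  obtain rfl : w4 = w5 - x5 * A5 := by linear_combination - a5
  obtain rfl : z4 = z5 - x5 ^ 2 * A5 := by linear_combination - b5
  obtain rfl : w3 = w5 - x5 * A5 - x4 * A4 := by linear_combination - a4 + x4 * hA4
  obtain rfl : z3 = z5 - x5 ^ 2 * A5 - x4 ^ 2 * A4 := by
    linear_combination - b4 + x4 ^ 2 * hA4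
  have hA3 : A1 + A2 + A3 = - A4 - A5 := by linear_combination hA4
  have F : (x3 - x2) * (x1 - x2) ^ 2 * (A1 * A2) + (x4 - x3) * (x4 - x5) ^ 2 * (A4 * A5) = 0 := by
    have hy3 : y5 + A1 + A2 + A3 = y5 - A4 - A5 := by linear_combination hA4
    rw [hy3] at e1 e4
    linear_combination e4 - y5 * e3 - z5 * e1 + 2 * w5 * e2
  -- the ratios
  have R12 : A1 * ((x1 - x3) * (x1 - x4) * (x1 - x5)) +
      A2 * ((x2 - x3) * (x2 - x4) * (x2 - x5)) = 0 := by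
    linear_combination M3 - (x3 + x4 + x5) * M2 + (x3 * x4 + x3 * x5 + x4 * x5) * M1 -
      x3 * x4 * x5 * hA4
  have R45 : A4 * ((x4 - x1) * (x4 - x2) * (x4 - x3)) +
      A5 * ((x5 - x1) * (x5 - x2) * (x5 - x3)) = 0 := by
    linear_combination M3 - (x1 + x2 + x3) * M2 + (x1 * x2 + x1 * x3 + x2 * x3) * M1 -
      x1 * x2 * x3 * hA4
  have R15 : A1 * ((x1 - x2) * (x1 - x3) * (x1 - x4)) +
      A5 * ((x5 - x2) * (x5 - x3) * (x5 - x4)) = 0 := by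
    linear_combination M3 - (x2 + x3 + x4) * M2 + (x2 * x3 + x2 * x4 + x3 * x4) * M1 -
      x2 * x3 * x4 * hA4
  have m12 : x1 - x2 ≠ 0 := sub_ne_zero.2 hx12
  have m13 : x1 - x3 ≠ 0 := sub_ne_zero.2 d13
  have m14 : x1 - x4 ≠ 0 := sub_ne_zero.2 d41.symm
  have m15 : x1 - x5 ≠ 0 := sub_ne_zero.2 hx51.symm
  have m23 : x2 - x3 ≠ 0 := sub_ne_zero.2 hx23
  have m24 : x2 - x4 ≠ 0 := sub_ne_zero.2 d24
  have m25 : x2 - x5 ≠ 0 := sub_ne_zero.2 d52.symm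
  have m34 : x3 - x4 ≠ 0 := sub_ne_zero.2 hx34
  have m35 : x3 - x5 ≠ 0 := sub_ne_zero.2 d35
  have m45 : x4 - x5 ≠ 0 := sub_ne_zero.2 hx45
  obtain ⟨α, hα⟩ : ∃ α, α = A1 * ((x1 - x2) * (x1 - x4) * (x1 - x5)) := ⟨_, rfl⟩
  obtain ⟨β, hβ⟩ : ∃ β, β = A5 * ((x4 - x5) * (x5 - x1) * (x5 - x2)) := ⟨_, rfl⟩
  have g1 : (x1 - x3) * α ^ 2 - (x5 - x3) * β ^ 2 = 0 := by
    rw [hα, hβ]
    linear_combination ((x1 - x4) * (x1 - x5) * (x2 - x4) * (x2 - x5)) * F +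
      (A1 * (x1 - x2) ^ 2 * (x1 - x4) * (x1 - x5)) * R12 -
      (A5 * (x4 - x5) ^ 2 * (x5 - x1) * (x5 - x2)) * R45
  have g2 : (x1 - x3) * α + (x5 - x3) * β = 0 := by
    rw [hα, hβ]
    linear_combination (x1 - x5) * R15
  have g3 : (x5 - x3) * (x5 - x1) * β ^ 2 = 0 := by
    linear_combination (x1 - x3) * g1 - ((x1 - x3) * α - (x5 - x3) * β) * g2
  have nβ : β ≠ 0 := by
    rw [hβ]
    exact mul_ne_zero n5 (mul_ne_zero (mul_ne_zero m45 (sub_ne_zero.2 hx51)) (sub_ne_zero.2 d52))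
  exact mul_ne_zero (mul_ne_zero (sub_ne_zero.2 d35.symm) (sub_ne_zero.2 hx51))
    (pow_ne_zero 2 nβ) g3

end Pool.Agent.KS6_54.GS
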