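import Pool.Agent.KS6_54.GS.Alg
import Pool.Graph.R_seed8.Y393.SG.Stm
import Pool.Graph.R_seed8.H258R2.GU.Cop
import Pool.Graph.R_seed8.H258R2.GU.GL

/-!
# Dense graphs of girth twelve (affine parts of generalized hexagons)
-/

set_option autoImplicit false

namespace Pool.Agent.KS6_54.GS

open SimpleGraph

/-- It is enough to consider closed walks which do not backtrack anywhere. -/
theorem girth_of_cyclic_walks {A B : Type} (E : A → B → Prop) (m : ℕ)
    (h : ∀ (g : ℕ) (a : ℕ → A) (b : ℕ → B), 2 ≤ g → (∀ i < g, E (a i) (b i)) →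
      (∀ i < g, E (a (i + 1)) (b i)) → (∀ i < g, a i ≠ a (i + 1)) →
      (∀ i, i + 1 < g → b i ≠ b (i + 1)) → b (g - 1) ≠ b 0 → a g = a 0 → m ≤ 2 * g) :
    (m : ℕ∞) ≤ (SimpleGraph.fromRel (fun x y : A ⊕ B =>
      ∃ a b, x = Sum.inl a ∧ y = Sum.inr b ∧ E a b)).egirth := by
  classical
  refine GU4.girth_of_closed_walks E m ?_
  intro g
  induction g using Nat.strong_induction_on with
  | _ g ih =>
    intro a b hg h1 h2 h3 h4 h5
    by_cases hg1 : g = 1
    · subst hg1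
      exact absurd h5.symm (h3 0 (by norm_num))
    by_cases hg2 : g = 2
    · subst hg2
      exact h 2 a b le_rfl h1 h2 h3 h4 (h4 0 (by norm_num)).symm h5
    have hg3 : 3 ≤ g := by omega
    by_cases hb : b (g - 1) = b 0
    · by_cases ha : a (g - 1) = a 1
      · refine (ih (g - 2) (by omega) (fun i => a (i + 1)) (fun i => b (i + 1)) (by omega)
          (fun i hi => h1 _ (by omega)) (fun i hi => h2 _ (by omega)) (fun i hi => h3 _ (by omega))
          (fun i hi => h4 _ (by omega)) ?_).trans (by omega)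
        rw [show g - 2 + 1 = g - 1 by omega]
        exact ha
      · refine (h (g - 1) (fun i => if i = g - 1 then a 1 else a (i + 1)) (fun i => b (i + 1))
          (by omega) ?_ ?_ ?_ (fun i hi => h4 _ (by omega)) ?_ ?_).trans (by omega)
        · intro i hi
          rw [if_neg (by omega)]
          exact h1 _ (by omega)
        · intro i hi
          by_cases hi2 : i + 1 = g - 1
          · rw [if_pos hi2, hi2, hb]
            exact h2 0 (by omega)
          · rw [if_neg hi2]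
            exact h2 _ (by omega)
        · intro i hi
          rw [if_neg (by omega : ¬ i = g - 1)]
          by_cases hi2 : i + 1 = g - 1
          · rw [if_pos hi2, hi2]
            exact ha
          · rw [if_neg hi2]
            exact h3 _ (by omega)
        · rw [show g - 1 - 1 + 1 = g - 1 by omega, hb]
          exact h4 0 (by omega)
        · rw [if_pos rfl, if_neg (by omega)]
    · exact h g a b (by omega) h1 h2 h3 h4 hb h5

section
variable {K : Type} [Field K]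

/-- Points and lines. -/
abbrev P5 (K : Type) : Type := K × K × K × K × K

/-- Incidence. -/
def inc (u v : P5 K) : Prop := u.2.1 + v.2.1 = u.1 * v.1 ∧ u.2.2.1 + v.2.2.1 = u.1 * v.2.1 ∧
  u.2.2.2.1 + v.2.2.2.1 = u.1 * v.2.2.1 ∧
  u.2.2.2.2 + v.2.2.2.2 = u.2.1 * v.2.2.1 - u.2.2.1 * v.2.1

/-- the first four coordinates -/
def hd (v : P5 K) : K × K × K × K := (v.1, v.2.1, v.2.2.1, v.2.2.2.1)

theorem inc_fst_left {u u' v : P5 K} (h : inc u v) (h' : inc u' v) (he : u.1 = u'.1) :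
    u = u' := by
  obtain ⟨u1, u2, u3, u4, u5⟩ := u
  obtain ⟨w1, w2, w3, w4, w5⟩ := u'
  obtain ⟨v1, v2, v3, v4, v5⟩ := v
  obtain ⟨a1, a2, a3, a4⟩ := h
  obtain ⟨b1, b2, b3, b4⟩ := h'
  simp only at a1 a2 a3 a4 b1 b2 b3 b4 he
  subst he
  obtain rfl : u2 = w2 := by linear_combination a1 - b1
  obtain rfl : u3 = w3 := by linear_combination a2 - b2
  obtain rfl : u4 = w4 := by linear_combination a3 - b3
  obtain rfl : u5 = w5 := by linear_combination a4 - b4
  rfl

theorem inc_fst_right {u v v' : P5 K} (h : inc u v) (h' : inc u v') (he : v.1 = v'.1) :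
    v = v' := by
  obtain ⟨u1, u2, u3, u4, u5⟩ := u
  obtain ⟨w1, w2, w3, w4, w5⟩ := v'
  obtain ⟨v1, v2, v3, v4, v5⟩ := v
  obtain ⟨a1, a2, a3, a4⟩ := h
  obtain ⟨b1, b2, b3, b4⟩ := h'
  simp only at a1 a2 a3 a4 b1 b2 b3 b4 he
  subst he
  obtain rfl : v2 = w2 := by linear_combination a1 - b1
  obtain rfl : v3 = w3 := by linear_combination a2 - b2
  obtain rfl : v4 = w4 := by linear_combination a3 - b3
  obtain rfl : v5 = w5 := by linear_combination a4 - b4
  rfl

theorem ls_of_inc {u v v' : P5 K} (h : inc u v) (h' : inc u v') : LS u.1 (hd v) (hd v') := by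
  obtain ⟨u1, u2, u3, u4, u5⟩ := u
  obtain ⟨w1, w2, w3, w4, w5⟩ := v'
  obtain ⟨v1, v2, v3, v4, v5⟩ := v
  obtain ⟨a1, a2, a3, a4⟩ := h
  obtain ⟨b1, b2, b3, b4⟩ := h'
  simp only [LS, hd] at *
  refine ⟨?_, ?_, ?_⟩
  · linear_combination b1 - a1
  · linear_combination b2 - a2 + u1 * (b1 - a1)
  · linear_combination b3 - a3 + u1 * (b2 - a2) + u1 ^ 2 * (b1 - a1)

/-- Two points on a line. -/
theorem ps_of_inc {u u' v : P5 K} (h : inc u v) (h' : inc u' v) :
    u'.2.1 - u.2.1 = (u'.1 - u.1) * v.1 ∧ u'.2.2.1 - u.2.2.1 = (u'.1 - u.1) * v.2.1 ∧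
    u'.2.2.2.1 - u.2.2.2.1 = (u'.1 - u.1) * v.2.2.1 ∧
    u'.2.2.2.2 - u.2.2.2.2 = (u'.1 - u.1) * Q (hd v) := by
  obtain ⟨u1, u2, u3, u4, u5⟩ := u
  obtain ⟨w1, w2, w3, w4, w5⟩ := u'
  obtain ⟨v1, v2, v3, v4, v5⟩ := v
  obtain ⟨a1, a2, a3, a4⟩ := h
  obtain ⟨b1, b2, b3, b4⟩ := h'
  simp only [Q, hd] at *
  refine ⟨?_, ?_, ?_, ?_⟩
  · linear_combination b1 - a1
  · linear_combination b2 - a2
  · linear_combination b3 - a3
  · linear_combination b4 - a4 + v3 * (b1 - a1) - v2 * (b2 - a2)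

theorem fst_ne_left {u u' v : P5 K} (h : inc u v) (h' : inc u' v) (he : u ≠ u') :
    u.1 ≠ u'.1 := fun e => he (inc_fst_left h h' e)

theorem fst_ne_right {u v v' : P5 K} (h : inc u v) (h' : inc u v') (he : v ≠ v') :
    v.1 ≠ v'.1 := fun e => he (inc_fst_right h h' e)

variable (K) in
/-- The graph. -/
def hex : SimpleGraph (P5 K ⊕ P5 K) := SimpleGraph.fromRel (fun x y : P5 K ⊕ P5 K =>
  ∃ a b, x = Sum.inl a ∧ y = Sum.inr b ∧ inc a b)

theorem girth_hex : ((12 : ℕ) : ℕ∞) ≤ (hex K).egirth := by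
  refine girth_of_cyclic_walks inc 12 ?_
  intro g a b hg h1 h2 h3 h4 h5 h6
  by_contra hlt
  have hg3 : g = 2 ∨ g = 3 ∨ g = 4 ∨ g = 5 := by omega
  rcases hg3 with rfl | rfl | rfl | rfl
  · have e0 := h1 0 (by norm_num)
    have f0 := h2 0 (by norm_num)
    have e1 := h1 1 (by norm_num)
    have f1 := h2 1 (by norm_num)
    have n0 := h3 0 (by norm_num)
    have m0 := h4 0 (by norm_num)
    simp only [Nat.reduceAdd, Nat.reduceSub] at e0 f0 e1 f1 n0 m0 h5
    rw [h6] at f1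
    exact alg2 (ls_of_inc f1 e0) (ls_of_inc f0 e1) (fst_ne_left e0 f0 n0) (fst_ne_right f0 e1 m0)
  · have e0 := h1 0 (by norm_num)
    have f0 := h2 0 (by norm_num)
    have e1 := h1 1 (by norm_num)
    have f1 := h2 1 (by norm_num)
    have e2 := h1 2 (by norm_num)
    have f2 := h2 2 (by norm_num)
    have n0 := h3 0 (by norm_num)
    have n2 := h3 2 (by norm_num)
    have m0 := h4 0 (by norm_num)
    simp only [Nat.reduceAdd, Nat.reduceSub] at e0 f0 e1 f1 e2 f2 n0 n2 m0 h5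
    rw [h6] at f2 n2
    exact alg3 (ls_of_inc f2 e0) (ls_of_inc f0 e1) (ls_of_inc f1 e2) (fst_ne_left e0 f0 n0)
      (fst_ne_left e2 f2 n2) (fst_ne_right f2 e0 h5)
  · have e0 := h1 0 (by norm_num)
    have f0 := h2 0 (by norm_num)
    have e1 := h1 1 (by norm_num)
    have f1 := h2 1 (by norm_num)
    have e2 := h1 2 (by norm_num)
    have f2 := h2 2 (by norm_num)
    have e3 := h1 3 (by norm_num)
    have f3 := h2 3 (by norm_num)
    have n0 := h3 0 (by norm_num)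
    have n1 := h3 1 (by norm_num)
    have n3 := h3 3 (by norm_num)
    have m0 := h4 0 (by norm_num)
    simp only [Nat.reduceAdd, Nat.reduceSub] at e0 f0 e1 f1 e2 f2 e3 f3 n0 n1 n3 m0 h5
    rw [h6] at f3 n3
    obtain ⟨p1, q1, r1, s1⟩ := ps_of_inc e0 f0
    obtain ⟨p2, q2, r2, s2⟩ := ps_of_inc e1 f1
    obtain ⟨p3, q3, r3, s3⟩ := ps_of_inc e2 f2
    obtain ⟨p4, q4, r4, s4⟩ := ps_of_inc e3 f3
    refine alg4 (ls_of_inc f3 e0) (ls_of_inc f0 e1) (ls_of_inc f1 e2) (ls_of_inc f2 e3)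
      (fst_ne_left e0 f0 n0) (fst_ne_left e1 f1 n1) (fst_ne_left e3 f3 n3)
      (fst_ne_right f3 e0 h5) (fst_ne_right f0 e1 m0) ?_ ?_ ?_ ?_
    · simp only [hd]; linear_combination - p1 - p2 - p3 - p4
    · simp only [hd]; linear_combination - q1 - q2 - q3 - q4
    · simp only [hd]; linear_combination - r1 - r2 - r3 - r4
    · linear_combination - s1 - s2 - s3 - s4
  · have e0 := h1 0 (by norm_num)
    have f0 := h2 0 (by norm_num)
    have e1 := h1 1 (by norm_num)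
    have f1 := h2 1 (by norm_num)
    have e2 := h1 2 (by norm_num)
    have f2 := h2 2 (by norm_num)
    have e3 := h1 3 (by norm_num)
    have f3 := h2 3 (by norm_num)
    have e4 := h1 4 (by norm_num)
    have f4 := h2 4 (by norm_num)
    have n0 := h3 0 (by norm_num)
    have n1 := h3 1 (by norm_num)
    have n2 := h3 2 (by norm_num)
    have n3 := h3 3 (by norm_num)
    have n4 := h3 4 (by norm_num)
    have m0 := h4 0 (by norm_num)
    have m1 := h4 1 (by norm_num)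
    have m2 := h4 2 (by norm_num)
    have m3 := h4 3 (by norm_num)
    simp only [Nat.reduceAdd, Nat.reduceSub] at e0 f0 e1 f1 e2 f2 e3 f3 e4 f4 n0 n1 n2 n3 n4 m0 m1 m2 m3 h5
    rw [h6] at f4 n4
    obtain ⟨p1, q1, r1, s1⟩ := ps_of_inc e0 f0
    obtain ⟨p2, q2, r2, s2⟩ := ps_of_inc e1 f1
    obtain ⟨p3, q3, r3, s3⟩ := ps_of_inc e2 f2
    obtain ⟨p4, q4, r4, s4⟩ := ps_of_inc e3 f3
    obtain ⟨p5, q5, r5, s5⟩ := ps_of_inc e4 f4
    refine alg5 (ls_of_inc f4 e0) (ls_of_inc f0 e1) (ls_of_inc f1 e2) (ls_of_inc f2 e3)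
      (ls_of_inc f3 e4)
      (fst_ne_left e0 f0 n0) (fst_ne_left e1 f1 n1) (fst_ne_left e2 f2 n2)
      (fst_ne_left e3 f3 n3) (fst_ne_left e4 f4 n4)
      (fst_ne_right f4 e0 h5) (fst_ne_right f0 e1 m0) (fst_ne_right f1 e2 m1)
      (fst_ne_right f2 e3 m2) (fst_ne_right f3 e4 m3) ?_ ?_ ?_ ?_
    · simp only [hd]; linear_combination - p1 - p2 - p3 - p4 - p5
    · simp only [hd]; linear_combination - q1 - q2 - q3 - q4 - q5
    · simp only [hd]; linear_combination - r1 - r2 - r3 - r4 - r5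
    · linear_combination - s1 - s2 - s3 - s4 - s5

theorem hex_adj_lr {a b : P5 K} : (hex K).Adj (Sum.inl a) (Sum.inr b) ↔ inc a b := by
  rw [hex, SimpleGraph.fromRel_adj]
  constructor
  · rintro ⟨-, ⟨a', b', h1, h2, h3⟩ | ⟨a', b', h1, h2, h3⟩⟩
    · rwa [Sum.inl.inj h1, Sum.inr.inj h2]
    · cases h1
  · intro h
    exact ⟨by simp, Or.inl ⟨a, b, rfl, rfl, h⟩⟩

theorem hex_adj_rl {a b : P5 K} : (hex K).Adj (Sum.inr b) (Sum.inl a) ↔ inc a b := by
  rw [SimpleGraph.adj_comm, hex_adj_lr]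

theorem deg_hex [Finite K] (x : P5 K ⊕ P5 K) : Nat.card K ≤ ((hex K).neighborSet x).ncard := by
  classical
  have key : ∃ f : K → P5 K ⊕ P5 K, Function.Injective f ∧ ∀ t, (hex K).Adj x (f t) := by
    rcases x with ⟨a, b, c, d, e⟩ | ⟨x, y, z, w, s⟩
    · refine ⟨fun t => Sum.inr (t, a * t - b, a * (a * t - b) - c,
        a * (a * (a * t - b) - c) - d, b * (a * (a * t - b) - c) - c * (a * t - b) - e), ?_, ?_⟩
      · intro s t h
        have := Sum.inr.inj h
        exact (Prod.ext_iff.1 this).1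
      · intro t
        rw [hex_adj_lr]
        refine ⟨?_, ?_, ?_, ?_⟩ <;> simp only <;> ring
    · refine ⟨fun t => Sum.inl (t, t * x - y, t * y - z, t * z - w,
        (t * x - y) * z - (t * y - z) * y - s), ?_, ?_⟩
      · intro s t h
        have := Sum.inl.inj h
        exact (Prod.ext_iff.1 this).1
      · intro t
        rw [hex_adj_rl]
        refine ⟨?_, ?_, ?_, ?_⟩ <;> simp only <;> ring
  obtain ⟨f, hf, hadj⟩ := key
  have h1 : (Set.range f).ncard = Nat.card K := Set.ncard_range_of_injective hf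
  refine (le_of_eq h1.symm).trans ?_
  exact Set.ncard_le_ncard (by rintro _ ⟨t, rfl⟩; exact hadj t) (Set.toFinite _)

end

theorem exists_fin {p : ℕ} [Fact p.Prime] : ∃ G : SimpleGraph (Fin (2 * p ^ 5)),
    ((12 : ℕ) : ℕ∞) ≤ G.egirth ∧ ∀ v, p ≤ (G.neighborSet v).ncard := by
  classical
  have hcard : Fintype.card (P5 (ZMod p) ⊕ P5 (ZMod p)) = 2 * p ^ 5 := by
    rw [Fintype.card_sum, Fintype.card_prod, Fintype.card_prod, Fintype.card_prod,
      Fintype.card_prod, ZMod.card]; ring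
  obtain ⟨e⟩ : Nonempty ((P5 (ZMod p) ⊕ P5 (ZMod p)) ≃ Fin (2 * p ^ 5)) :=
    ⟨Fintype.equivFinOfCardEq hcard⟩
  let i := SimpleGraph.Iso.map e (hex (ZMod p))
  refine ⟨(hex (ZMod p)).map e, ?_, ?_⟩
  · rw [← i.egirth_eq]; exact girth_hex
  · intro v
    have h1 := deg_hex (e.symm v)
    rw [Nat.card_zmod] at h1
    refine h1.trans (le_of_eq ?_)
    have hadj : ∀ x y, ((hex (ZMod p)).map e).Adj (e x) (e y) ↔ (hex (ZMod p)).Adj x y :=
      fun x y => i.map_adj_iff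
    have h2 : ((hex (ZMod p)).map e).neighborSet v =
        e '' ((hex (ZMod p)).neighborSet (e.symm v)) := by
      ext w
      rw [Set.mem_image, SimpleGraph.mem_neighborSet]
      constructor
      · intro h
        refine ⟨e.symm w, ?_, by simp⟩
        rw [SimpleGraph.mem_neighborSet, ← hadj]
        simpa using h
      · rintro ⟨y, hy, rfl⟩
        rw [SimpleGraph.mem_neighborSet, ← hadj] at hy
        simpa using hy
    rw [h2, Set.ncard_image_of_injective _ e.injective]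

/-- The girth conjecture for `k = 5` -/
theorem dense_girth_twelve : ∃ c : ℝ, 0 < c ∧ ∃ N : ℕ, ∀ n ≥ N, ∃ G : SimpleGraph (Fin n),
    ((12 : ℕ) : ℕ∞) ≤ G.egirth ∧ c * (n : ℝ) ^ (1 + 1 / (5 : ℝ)) ≤ (G.edgeSet.ncard : ℝ) := by
  classical
  refine ⟨1 / 16, by norm_num, 64, fun n hn => ?_⟩
  obtain ⟨t, ht1, ht2⟩ : ∃ t : ℕ, 64 * t ^ 5 ≤ n ∧ n < 64 * (t + 1) ^ 5 := by
    refine ⟨Nat.findGreatest (fun t => 64 * t ^ 5 ≤ n) n, ?_, ?_⟩
    · exact Nat.findGreatest_spec (P := fun t => 64 * t ^ 5 ≤ n) (m := 0) (Nat.zero_le _) (by simp)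
    · by_contra hle
      push Not at hle
      have h1 : Nat.findGreatest (fun t => 64 * t ^ 5 ≤ n) n + 1 ≤ n := by
        refine le_trans ?_ hle
        have h2 := Nat.le_self_pow (n := 5) (by norm_num)
          (Nat.findGreatest (fun t => 64 * t ^ 5 ≤ n) n + 1)
        omega
      have h3 := Nat.le_findGreatest (P := fun t => 64 * t ^ 5 ≤ n) h1 hle
      omega
  have ht0 : t ≠ 0 := by
    rintro rfl
    omega
  obtain ⟨p, hp, hp1, hp2⟩ := Nat.exists_prime_lt_and_le_two_mul t ht0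
  have : Fact p.Prime := ⟨hp⟩
  obtain ⟨G, hG, hd⟩ := exists_fin (p := p)
  have hm : 2 * p ^ 5 ≤ n := by
    have h1 : p ^ 5 ≤ (2 * t) ^ 5 := Nat.pow_le_pow_left hp2 5
    have h2 : (2 * t) ^ 5 = 32 * t ^ 5 := by ring
    omega
  have hp0 : 0 < 2 * p ^ 5 := by have := hp.pos; positivity
  have hn2 : n ≤ 64 * p ^ 5 := by
    have h1 : (t + 1) ^ 5 ≤ p ^ 5 := Nat.pow_le_pow_left hp1 5
    omega
  obtain ⟨H, hH1, hH2⟩ := GU4.copies (2 * p ^ 5) n p ((12 : ℕ) : ℕ∞) hp0 hm G (fun v => by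
    have := hd v
    rwa [Set.ncard_eq_toFinset_card', Set.toFinset_card, SimpleGraph.card_neighborSet_eq_degree]
      at this) hG
  refine ⟨H, hH1, ?_⟩
  have hnp : (0 : ℝ) < n := by exact_mod_cast (by omega : 0 < n)
  have h1 : (n : ℝ) ^ (1 / 5 : ℝ) ≤ 4 * p := by
    have h2 : (n : ℝ) ≤ (4 * p) ^ 5 := by
      have : ((4 * p : ℝ)) ^ 5 = 1024 * p ^ 5 := by ring
      rw [this]
      have h3 : (n : ℝ) ≤ 64 * p ^ 5 := by exact_mod_cast hn2
      have h4 : (0 : ℝ) ≤ (p : ℝ) ^ 5 := by positivity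
      linarith
    calc (n : ℝ) ^ (1 / 5 : ℝ) ≤ ((4 * p : ℝ) ^ 5) ^ (1 / 5 : ℝ) :=
          Real.rpow_le_rpow hnp.le h2 (by norm_num)
      _ = 4 * p := by
          rw [← Real.rpow_natCast, ← Real.rpow_mul (by positivity)]
          norm_num
  rw [Real.rpow_add hnp, Real.rpow_one]
  have h3 : (n : ℝ) * p ≤ 4 * H.edgeSet.ncard := by exact_mod_cast hH2
  nlinarith [mul_le_mul_of_nonneg_left h1 hnp.le]

end Pool.Agent.KS6_54.GS
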