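import Pool.Graph.R_seed8.Y393.SG.SubHan
import Pool.Graph.R_seed8.Y395.SG.Emb

/-!
# Graphs of girth six on every surface which are not `(0,k)`-colourable
-/

set_option autoImplicit false

namespace Pool.Agent.KS6_54.GS

open SimpleGraph Pool.Agent.H968R3 Pool.Agent.Y393.SG Pool.Agent.Y395.SG

/-- the perfect matching of the six main vertices -/
def mate : Fin 6 → Fin 6 := ![3, 2, 1, 0, 5, 4]

/-- the ends of the four bundles of paths -/
def en : Fin 4 → Bool → Fin 6
  | 0, false => 0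
  | 0, true => 1
  | 1, false => 0
  | 1, true => 2
  | 2, false => 3
  | 2, true => 4
  | 3, false => 3
  | 3, true => 5

theorem mate_ne : ∀ m, mate m ≠ m := by decide
theorem mate_mate : ∀ m, mate (mate m) = m := by decide
theorem en_ne : ∀ j b, en j b ≠ en j (!b) := by decide
theorem mate_en : ∀ j b, mate (en j b) ≠ en j (!b) := by decide

/-- Six main vertices, `D` paths with three edges in each bundle. -/
abbrev VV (D : ℕ) : Type := Fin 6 ⊕ (Fin 4 × Fin D × Bool)

/-- Three edges and four bundles of `D` paths of length three. -/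
def gr (D : ℕ) : SimpleGraph (VV D) where
  Adj x y := match x, y with
    | Sum.inl m, Sum.inl n => mate m = n
    | Sum.inl m, Sum.inr (j, _, b) => en j b = m
    | Sum.inr (j, _, b), Sum.inl m => en j b = m
    | Sum.inr (j, i, b), Sum.inr (j', i', b') => j' = j ∧ i' = i ∧ b' = !b
  symm := ⟨by
    rintro (m | ⟨j, i, b⟩) (n | ⟨j', i', b'⟩) h
    · exact h ▸ mate_mate m
    · exact h
    · exact h
    · obtain ⟨rfl, rfl, rfl⟩ := h
      exact ⟨rfl, rfl, (Bool.not_not b).symm⟩⟩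
  loopless := ⟨by
    rintro (m | ⟨j, i, b⟩) h
    · exact mate_ne m h
    · exact absurd h.2.2 (by cases b <;> decide)⟩

variable {D : ℕ}

theorem adj_mid {j : Fin 4} {i : Fin D} {b : Bool} {y : VV D}
    (h : (gr D).Adj (Sum.inr (j, i, b)) y) : y = Sum.inl (en j b) ∨ y = Sum.inr (j, i, !b) := by
  rcases y with m | ⟨j', i', b'⟩
  · exact Or.inl (congrArg Sum.inl (Eq.symm h))
  · obtain ⟨rfl, rfl, rfl⟩ := h
    exact Or.inr rfl

theorem no_common {j : Fin 4} {b : Bool} {y : VV D} (h : (gr D).Adj y (Sum.inl (en j b)))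
    (h' : (gr D).Adj y (Sum.inl (en j (!b)))) : False := by
  rcases y with m | ⟨j', i', b'⟩
  · exact en_ne j b ((Eq.symm h).trans h')
  · exact en_ne j b ((Eq.symm h).trans h')

theorem not_adj_ends {j : Fin 4} {b : Bool} :
    ¬ (gr D).Adj (Sum.inl (en j b)) (Sum.inl (en j (!b))) := fun h => mate_en j b h

/-- a middle vertex on a closed walk with distinct neighbours -/
theorem mid_cases {j : Fin 4} {i : Fin D} {b : Bool} {y z : VV D}
    (hy : (gr D).Adj (Sum.inr (j, i, b)) y) (hz : (gr D).Adj (Sum.inr (j, i, b)) z) (hyz : y ≠ z) :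
    (y = Sum.inl (en j b) ∧ z = Sum.inr (j, i, !b)) ∨
      (z = Sum.inl (en j b) ∧ y = Sum.inr (j, i, !b)) := by
  rcases adj_mid hy with h | h <;> rcases adj_mid hz with h' | h'
  · exact absurd (h.trans h'.symm) hyz
  · exact Or.inl ⟨h, h'⟩
  · exact Or.inr ⟨h', h⟩
  · exact absurd (h.trans h'.symm) hyz

theorem partner {j : Fin 4} {i : Fin D} {b : Bool} {z : VV D}
    (hz : (gr D).Adj (Sum.inr (j, i, !b)) z) (hne : z ≠ Sum.inr (j, i, b)) :
    z = Sum.inl (en j (!b)) := by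
  rcases adj_mid hz with h | h
  · exact h
  · rw [Bool.not_not] at h
    exact absurd h hne

theorem main_two {m : Fin 6} {y z : VV D} {n n' : Fin 6} (hy : y = Sum.inl n) (hz : z = Sum.inl n')
    (h : (gr D).Adj (Sum.inl m) y) (h' : (gr D).Adj (Sum.inl m) z) : y = z := by
  subst hy hz
  exact congrArg Sum.inl ((Eq.symm h).trans h')

theorem m3 {x y z : VV D} {q} (hx : x = Sum.inr q) (h1 : (gr D).Adj x y) (h2 : (gr D).Adj y z)
    (h3 : (gr D).Adj z x) : False := by
  obtain ⟨j, i, b⟩ := q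
  subst hx
  rcases mid_cases h1 h3.symm h2.ne with ⟨rfl, rfl⟩ | ⟨rfl, rfl⟩
  · exact en_ne j b (Eq.symm h2)
  · exact en_ne j b (Eq.symm h2)

theorem no3 {x y z : VV D} (h1 : (gr D).Adj x y) (h2 : (gr D).Adj y z)
    (h3 : (gr D).Adj z x) : False := by
  rcases hx : x with m | q
  · rcases hy : y with m' | q
    · rcases hz : z with m'' | q
      · subst hx
        exact h2.ne (main_two hy hz h1 h3.symm)
      · exact m3 hz h3 h1 h2
    · exact m3 hy h2 h3 h1
  · exact m3 hx h1 h2 h3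

theorem m4 {x y z w : VV D} {q} (hx : x = Sum.inr q) (h1 : (gr D).Adj x y) (h2 : (gr D).Adj y z)
    (h3 : (gr D).Adj z w) (h4 : (gr D).Adj w x) (hxz : x ≠ z) (hyw : y ≠ w) : False := by
  obtain ⟨j, i, b⟩ := q
  subst hx
  rcases mid_cases h1 h4.symm hyw with ⟨rfl, rfl⟩ | ⟨rfl, rfl⟩
  · have := partner h3.symm hxz.symm
    subst this
    exact not_adj_ends h2
  · have := partner h2 hxz.symm
    subst this
    exact not_adj_ends h3.symm

theorem no4 {x y z w : VV D} (h1 : (gr D).Adj x y) (h2 : (gr D).Adj y z)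
    (h3 : (gr D).Adj z w) (h4 : (gr D).Adj w x) (hxz : x ≠ z) (hyw : y ≠ w) : False := by
  rcases hx : x with m | q
  · rcases hy : y with m' | q
    · rcases hw : w with m'' | q
      · subst hx
        exact hyw (main_two hy hw h1 h4.symm)
      · exact m4 hw h4 h1 h2 h3 hyw.symm hxz
    · exact m4 hy h2 h3 h4 h1 hyw hxz.symm
  · exact m4 hx h1 h2 h3 h4 hxz hyw

theorem m5 {x y z w u : VV D} {q} (hx : x = Sum.inr q) (h1 : (gr D).Adj x y)
    (h2 : (gr D).Adj y z) (h3 : (gr D).Adj z w) (h4 : (gr D).Adj w u) (h5 : (gr D).Adj u x)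
    (hxz : x ≠ z) (hxw : x ≠ w) (hyu : y ≠ u) : False := by
  obtain ⟨j, i, b⟩ := q
  subst hx
  rcases mid_cases h1 h5.symm hyu with ⟨rfl, rfl⟩ | ⟨rfl, rfl⟩
  · have := partner h4.symm hxw.symm
    subst this
    exact no_common h2.symm h3
  · have := partner h2 hxz.symm
    subst this
    exact no_common h4 h3.symm

theorem no5 {x y z w u : VV D} (h1 : (gr D).Adj x y)
    (h2 : (gr D).Adj y z) (h3 : (gr D).Adj z w) (h4 : (gr D).Adj w u) (h5 : (gr D).Adj u x)
    (hxz : x ≠ z) (hxw : x ≠ w) (hyw : y ≠ w) (hyu : y ≠ u) (hzu : z ≠ u) : False := by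
  rcases hx : x with m | q
  · rcases hy : y with m' | q
    · rcases hu : u with m'' | q
      · subst hx
        exact hyu (main_two hy hu h1 h5.symm)
      · exact m5 hu h5 h1 h2 h3 h4 hyu.symm hzu.symm hxw
    · exact m5 hy h2 h3 h4 h5 h1 hyw hyu hxz.symm
  · exact m5 hx h1 h2 h3 h4 h5 hxz hxw hyu

theorem girth_gr : ((6 : ℕ) : ℕ∞) ≤ (gr D).egirth := by
  rw [SimpleGraph.le_egirth]
  intro a w hw
  by_contra hlt
  have hl : w.length < 6 := by
    by_contra h
    exact hlt (by exact_mod_cast not_lt.1 h)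
  have h3 := hw.three_le_length
  have hinj := hw.getVert_injOn
  have hadj : ∀ i, i < w.length → (gr D).Adj (w.getVert i) (w.getVert (i + 1)) :=
    fun i hi => w.adj_getVert_succ hi
  have h0 : w.getVert w.length = w.getVert 0 := by
    rw [Walk.getVert_length, Walk.getVert_zero]
  have hne : ∀ i j, 1 ≤ i → i ≤ w.length → 1 ≤ j → j ≤ w.length → i ≠ j →
      w.getVert i ≠ w.getVert j := fun i j h1 h2 h3 h4 h5 h6 => h5 (hinj ⟨h1, h2⟩ ⟨h3, h4⟩ h6)
  generalize w.getVert = v at *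
  generalize w.length = n at *
  have hn : n = 3 ∨ n = 4 ∨ n = 5 := by omega
  rcases hn with rfl | rfl | rfl
  · have e0 := hadj 0 (by norm_num)
    have e1 := hadj 1 (by norm_num)
    have e2 := hadj 2 (by norm_num)
    simp only [Nat.reduceAdd] at e0 e1 e2
    rw [← h0] at e0
    exact no3 e0 e1 e2
  · have e0 := hadj 0 (by norm_num)
    have e1 := hadj 1 (by norm_num)
    have e2 := hadj 2 (by norm_num)
    have e3 := hadj 3 (by norm_num)
    simp only [Nat.reduceAdd] at e0 e1 e2 e3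
    rw [← h0] at e0
    exact no4 e0 e1 e2 e3 (hne 4 2 (by norm_num) (by norm_num) (by norm_num) (by norm_num)
      (by norm_num)) (hne 1 3 (by norm_num) (by norm_num) (by norm_num) (by norm_num)
      (by norm_num))
  · have e0 := hadj 0 (by norm_num)
    have e1 := hadj 1 (by norm_num)
    have e2 := hadj 2 (by norm_num)
    have e3 := hadj 3 (by norm_num)
    have e4 := hadj 4 (by norm_num)
    simp only [Nat.reduceAdd] at e0 e1 e2 e3 e4
    rw [← h0] at e0
    exact no5 e0 e1 e2 e3 e4 (hne 5 2 (by norm_num) (by norm_num) (by norm_num) (by norm_num)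
      (by norm_num)) (hne 5 3 (by norm_num) (by norm_num) (by norm_num) (by norm_num)
      (by norm_num)) (hne 1 3 (by norm_num) (by norm_num) (by norm_num) (by norm_num)
      (by norm_num)) (hne 1 4 (by norm_num) (by norm_num) (by norm_num) (by norm_num)
      (by norm_num)) (hne 2 4 (by norm_num) (by norm_num) (by norm_num) (by norm_num)
      (by norm_num))

/-- One end of every bundle is in the independent set. -/
theorem bundle {k : ℕ} {I : Set (VV (2 * k + 1))} (hI : ∀ u ∈ I, ∀ v ∈ I, ¬ (gr _).Adj u v)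
    (hk : ∀ v ∉ I, {w | (gr _).Adj v w ∧ w ∉ I}.ncard ≤ k) (j : Fin 4) :
    Sum.inl (en j false) ∈ I ∨ Sum.inl (en j true) ∈ I := by
  classical
  by_contra hcon
  push Not at hcon
  obtain ⟨h1, h2⟩ := hcon
  have key : ∀ b, Sum.inl (en j b) ∉ I →
      {i : Fin (2 * k + 1) | (Sum.inr (j, i, b) : VV _) ∉ I}.ncard ≤ k := by
    intro b hb
    refine le_trans ?_ (hk _ hb)
    rw [← Set.ncard_image_of_injective {i : Fin (2 * k + 1) | (Sum.inr (j, i, b) : VV _) ∉ I}
      (f := fun i => (Sum.inr (j, i, b) : VV (2 * k + 1))) (fun i i' h => by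
        have := Sum.inr.inj h
        exact (Prod.ext_iff.1 (Prod.ext_iff.1 this).2).1)]
    refine Set.ncard_le_ncard ?_ (Set.toFinite _)
    rintro _ ⟨i, hi, rfl⟩
    exact ⟨rfl, hi⟩
  have k1 := key false h1
  have k2 := key true h2
  have huniv : (Set.univ : Set (Fin (2 * k + 1))) ⊆
      {i | (Sum.inr (j, i, false) : VV _) ∉ I} ∪ {i | (Sum.inr (j, i, true) : VV _) ∉ I} := by
    intro i _
    by_contra hi
    simp only [Set.mem_union, Set.mem_ofPred_eq, not_or, not_not] at hi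
    exact hI _ hi.1 _ hi.2 ⟨rfl, rfl, rfl⟩
  have h4 := Set.ncard_le_ncard huniv (Set.toFinite _)
  rw [Set.ncard_univ, Nat.card_eq_fintype_card, Fintype.card_fin] at h4
  have h5 := Set.ncard_union_le {i : Fin (2 * k + 1) | (Sum.inr (j, i, false) : VV _) ∉ I}
    {i | (Sum.inr (j, i, true) : VV _) ∉ I}
  omega

theorem not_col (k : ℕ) : ¬ ZeroCol (gr (2 * k + 1)) k := by
  rintro ⟨I, hI, hk⟩
  have b := bundle hI hk
  have e12 : ¬ ((Sum.inl 1 : VV (2 * k + 1)) ∈ I ∧ (Sum.inl 2 : VV (2 * k + 1)) ∈ I) :=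
    fun h => hI _ h.1 _ h.2 (by decide : mate 1 = 2)
  have e45 : ¬ ((Sum.inl 4 : VV (2 * k + 1)) ∈ I ∧ (Sum.inl 5 : VV (2 * k + 1)) ∈ I) :=
    fun h => hI _ h.1 _ h.2 (by decide : mate 4 = 5)
  have e03 : ¬ ((Sum.inl 0 : VV (2 * k + 1)) ∈ I ∧ (Sum.inl 3 : VV (2 * k + 1)) ∈ I) :=
    fun h => hI _ h.1 _ h.2 (by decide : mate 0 = 3)
  have b0 := b 0
  have b1 := b 1
  have b2 := b 2
  have b3 := b 3
  simp only [en] at b0 b1 b2 b3
  tauto

/-! ### The embedding -/

theorem exists_path3 {T : Finset (Finset ℕ)} {g : ℕ} (hT : Good T g) {s t : ℕ}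
    (hst : (skel T).Adj s t) : ∃ (T' : Finset (Finset ℕ)) (Z : Bool → ℕ), Good T' g ∧ Ext T T' ∧
      (∀ b, Z b ∉ vs T ∧ Z b ∈ vs T') ∧ Z false ≠ Z true ∧ (skel T').Adj s (Z false) ∧
      (skel T').Adj (Z false) (Z true) ∧ (skel T').Adj (Z true) t := by
  obtain ⟨hne, τ, hτ, hs, ht⟩ := hst
  obtain ⟨T1, x, h1, h2, h3, h4, h5, h6, h7, h8⟩ := exists_sub t_SUB hT hτ
  have hx1 : ({x, s, t} : Finset ℕ) ∈ T1 := h8 s hs t ht hne
  obtain ⟨T2, y, g1, g2, g3, g4, g5, g6, g7, g8⟩ := exists_sub t_SUB h1 hx1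
  have hxv : x ∈ vs T1 := by rw [h4]; exact Finset.mem_insert_self _ _
  refine ⟨T2, fun b => if b then y else x, g1, h2.trans g2, ?_, ?_, ?_, ?_, ?_⟩
  · intro b
    cases b
    · exact ⟨h3, g2.1 hxv⟩
    · refine ⟨fun h => g3 (h2.1 h), ?_⟩
      simp only [if_true]
      rw [g4]
      exact Finset.mem_insert_self _ _
  · simp only [Bool.false_eq_true, if_false, if_true]
    rintro rfl
    exact g3 hxv
  · simp only [Bool.false_eq_true, if_false]
    exact g2.2 _ _ ((h6 s).2 hs).symm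
  · simp only [Bool.false_eq_true, if_false, if_true]
    exact ((g6 x).2 (by simp)).symm
  · simp only [if_true]
    exact (g6 t).2 (by simp)

theorem exists_paths {ι : Type} [DecidableEq ι] {T : Finset (Finset ℕ)} {g : ℕ} (hT : Good T g)
    (s t : ι → ℕ) (hst : ∀ i, (skel T).Adj (s i) (t i)) (S : Finset ι) :
    ∃ (T' : Finset (Finset ℕ)) (Z : ι → Bool → ℕ), Good T' g ∧ Ext T T' ∧
      (∀ i ∈ S, ∀ b, Z i b ∉ vs T ∧ Z i b ∈ vs T') ∧
      (∀ i ∈ S, ∀ j ∈ S, ∀ b c, Z i b = Z j c → i = j ∧ b = c) ∧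
      (∀ i ∈ S, (skel T').Adj (s i) (Z i false) ∧
      (skel T').Adj (Z i false) (Z i true) ∧ (skel T').Adj (Z i true) (t i)) := by
  induction S using Finset.induction_on with
  | empty =>
    exact ⟨T, fun _ _ => 0, hT, ⟨Finset.Subset.refl _, fun _ _ h => h⟩, by simp, by simp, by simp⟩
  | insert a S ha ih =>
    obtain ⟨T1, Z, h1, h2, h3, h4, h5⟩ := ih
    obtain ⟨T2, Y, g1, g2, g3, g4, g5, g6, g7⟩ := exists_path3 h1 (h2.2 _ _ (hst a))
    have hZa : ∀ i ∈ S, Function.update Z a Y i = Z i := by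
      intro i hi
      rw [Function.update_of_ne]
      rintro rfl
      exact ha hi
    have hYi : ∀ b c, Y b = Y c → b = c := by
      intro b c h
      cases b <;> cases c
      · rfl
      · exact absurd h g4
      · exact absurd h.symm g4
      · rfl
    refine ⟨T2, Function.update Z a Y, g1, h2.trans g2, ?_, ?_, ?_⟩
    · intro i hi b
      rcases Finset.mem_insert.1 hi with rfl | hi
      · rw [Function.update_self]
        exact ⟨fun h => (g3 b).1 (h2.1 h), (g3 b).2⟩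
      · rw [hZa i hi]
        exact ⟨(h3 i hi b).1, g2.1 (h3 i hi b).2⟩
    · intro i hi j hj b c h
      rcases Finset.mem_insert.1 hi with hi' | hi' <;>
        rcases Finset.mem_insert.1 hj with hj' | hj'
      · rw [hi', hj', Function.update_self] at h
        exact ⟨hi'.trans hj'.symm, hYi _ _ h⟩
      · rw [hi', Function.update_self, hZa j hj'] at h
        exact absurd (h ▸ (h3 j hj' c).2) (g3 b).1
      · rw [hj', Function.update_self, hZa i hi'] at h
        exact absurd (h ▸ (h3 i hi' b).2) (g3 c).1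
      · rw [hZa i hi', hZa j hj'] at h
        exact h4 i hi' j hj' b c h
    · intro i hi
      rcases Finset.mem_insert.1 hi with rfl | hi
      · rw [Function.update_self]
        exact ⟨g5, g6, g7⟩
      · rw [hZa i hi]
        obtain ⟨k1, k2, k3⟩ := h5 i hi
        exact ⟨g2.2 _ _ k1, g2.2 _ _ k2, g2.2 _ _ k3⟩

/-- The six main vertices. -/
theorem exists_base (g : ℕ) : ∃ (T : Finset (Finset ℕ)) (f : Fin 6 → ℕ), Good T g ∧
    Function.Injective f ∧ (∀ m, f m ∈ vs T) ∧ (∀ m, (skel T).Adj (f m) (f (mate m))) ∧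
    ∀ j, (skel T).Adj (f (en j false)) (f (en j true)) := by
  obtain ⟨T0, h0⟩ := exists_good t_SUB t_HAN g
  obtain ⟨t, ht⟩ := h0.1.nonempty
  obtain ⟨a0, a1, a2, n01, n02, n12, rfl⟩ := Finset.card_eq_three.1 (h0.1.card_eq t ht)
  have v0 : a0 ∈ vs T0 := Y395.SG.mem_vs.2 ⟨_, ht, by simp⟩
  have v1 : a1 ∈ vs T0 := Y395.SG.mem_vs.2 ⟨_, ht, by simp⟩
  have v2 : a2 ∈ vs T0 := Y395.SG.mem_vs.2 ⟨_, ht, by simp⟩
  have e01 : (skel T0).Adj a0 a1 := ⟨n01, _, ht, by simp, by simp⟩
  have e02 : (skel T0).Adj a0 a2 := ⟨n02, _, ht, by simp, by simp⟩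
  have e12 : (skel T0).Adj a1 a2 := ⟨n12, _, ht, by simp, by simp⟩
  obtain ⟨T1, a3, h1, x1, f1, w1, -, s1, -, r1⟩ := exists_sub t_SUB h0 ht
  have t1 : ({a3, a0, a1} : Finset ℕ) ∈ T1 := r1 a0 (by simp) a1 (by simp) n01
  have e30 : (skel T1).Adj a3 a0 := (s1 a0).2 (by simp)
  have v3 : a3 ∈ vs T1 := by rw [w1]; exact Finset.mem_insert_self _ _
  obtain ⟨T2, a4, h2, x2, f2, w2, -, s2, -, r2⟩ := exists_sub t_SUB h1 t1
  have t2 : ({a4, a3, a0} : Finset ℕ) ∈ T2 := r2 a3 (by simp) a0 (by simp) e30.ne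
  have e43 : (skel T2).Adj a4 a3 := (s2 a3).2 (by simp)
  have v4 : a4 ∈ vs T2 := by rw [w2]; exact Finset.mem_insert_self _ _
  obtain ⟨T3, a5, h3, x3, f3, w3, -, s3, -, r3⟩ := exists_sub t_SUB h2 t2
  have e54 : (skel T3).Adj a5 a4 := (s3 a4).2 (by simp)
  have e53 : (skel T3).Adj a5 a3 := (s3 a3).2 (by simp)
  have v5 : a5 ∈ vs T3 := by rw [w3]; exact Finset.mem_insert_self _ _
  have X := (x1.trans x2).trans x3
  have X' := x2.trans x3
  refine ⟨T3, ![a0, a1, a2, a3, a4, a5], h3, ?_, ?_, ?_, ?_⟩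
  · have ne3 : ∀ z ∈ vs T0, z ≠ a3 := fun z hz h => f1 (h ▸ hz)
    have ne4 : ∀ z ∈ vs T1, z ≠ a4 := fun z hz h => f2 (h ▸ hz)
    have ne5 : ∀ z ∈ vs T2, z ≠ a5 := fun z hz h => f3 (h ▸ hz)
    have n03 := ne3 _ v0
    have n13 := ne3 _ v1
    have n23 := ne3 _ v2
    have n04 := ne4 _ (x1.1 v0)
    have n14 := ne4 _ (x1.1 v1)
    have n24 := ne4 _ (x1.1 v2)
    have n34 := ne4 _ v3
    have n05 := ne5 _ ((x1.trans x2).1 v0)
    have n15 := ne5 _ ((x1.trans x2).1 v1)
    have n25 := ne5 _ ((x1.trans x2).1 v2)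
    have n35 := ne5 _ (x2.1 v3)
    have n45 := ne5 _ v4
    intro i j hij
    fin_cases i <;> fin_cases j <;> simp at hij ⊢ <;>
      first
      | exact absurd hij (by assumption)
      | exact absurd hij.symm (by assumption)
  · intro m
    fin_cases m
    · exact X.1 v0
    · exact X.1 v1
    · exact X.1 v2
    · exact X'.1 v3
    · exact x3.1 v4
    · exact v5
  · intro m
    fin_cases m
    · exact X'.2 _ _ e30.symm
    · exact X.2 _ _ e12
    · exact X.2 _ _ e12.symm
    · exact X'.2 _ _ e30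
    · exact e54.symm
    · exact e54
  · intro j
    fin_cases j
    · exact X.2 _ _ e01
    · exact X.2 _ _ e02
    · exact x3.2 _ _ e43.symm
    · exact e53.symm

theorem gr_embeds (D g : ℕ) : EmbedsEulerGenus (gr D) g := by
  classical
  obtain ⟨T0, f, h0, hf, hv, hm, he⟩ := exists_base g
  obtain ⟨T, Z, h1, h2, h3, h4, h5⟩ := exists_paths h0
    (fun q : Fin 4 × Fin D => f (en q.1 false)) (fun q => f (en q.1 true))
    (fun q => he q.1) Finset.univ
  refine embeds_of_good h1 (Sum.elim f (fun q => Z (q.1, q.2.1) q.2.2)) ?_ ?_ ?_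
  · rintro (m | ⟨j, i, b⟩) (n | ⟨j', i', b'⟩) h
    · exact congrArg Sum.inl (hf h)
    · simp only [Sum.elim_inl, Sum.elim_inr] at h
      exact absurd (h ▸ hv m) (h3 (j', i') (Finset.mem_univ _) b').1
    · simp only [Sum.elim_inl, Sum.elim_inr] at h
      exact absurd (h ▸ hv n) (h3 (j, i) (Finset.mem_univ _) b).1
    · simp only [Sum.elim_inr] at h
      obtain ⟨h6, h7⟩ := h4 (j, i) (Finset.mem_univ _) (j', i') (Finset.mem_univ _) b b' h
      rw [Prod.mk.injEq] at h6
      rw [h6.1, h6.2, h7]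
  · rintro (m | ⟨j, i, b⟩)
    · exact h2.1 (hv m)
    · exact (h3 (j, i) (Finset.mem_univ _) b).2
  · have key : ∀ (j : Fin 4) (i : Fin D) (b : Bool),
        (skel T).Adj (Z (j, i) b) (f (en j b)) := by
      intro j i b
      obtain ⟨k1, k2, k3⟩ := h5 (j, i) (Finset.mem_univ _)
      cases b
      · exact k1.symm
      · exact k3
    rintro (m | ⟨j, i, b⟩) (n | ⟨j', i', b'⟩) h
    · have h' : mate m = n := h
      subst h'
      exact h2.2 _ _ (hm m)
    · have h' : en j' b' = m := h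
      subst h'
      exact (key j' i' b').symm
    · have h' : en j b = n := h
      subst h'
      exact key j i b
    · obtain ⟨rfl, rfl, rfl⟩ := h
      obtain ⟨k1, k2, k3⟩ := h5 (j', i') (Finset.mem_univ _)
      cases b
      · exact k2
      · exact k2.symm

/-- For all `k` and `g` some graph of girth at least six embeds on a surface of Euler genus `g`
and is not `(0,k)`-colourable. -/
theorem six (g k : ℕ) : ∃ (V : Type) (_ : Finite V) (G : SimpleGraph V),
    ((6 : ℕ) : ℕ∞) ≤ G.egirth ∧ EmbedsEulerGenus G g ∧ ¬ ZeroCol G k :=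
  ⟨VV (2 * k + 1), inferInstance, gr (2 * k + 1), girth_gr, gr_embeds _ _, not_col k⟩

end Pool.Agent.KS6_54.GS
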